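import Mathlib

set_option autoImplicit false

namespace Pool.Agent.Helper535.WF

open Set Topology Filter

universe u

/-- weakly first countable spaces -/
def WeaklyFirstCountable (X : Type u) [TopologicalSpace X] : Prop :=
  ∃ V : X → ℕ → Set X, (∀ x n, x ∈ V x n) ∧ (∀ x n, V x (n + 1) ⊆ V x n) ∧
    ∀ O : Set X, IsOpen O ↔ ∀ x ∈ O, ∃ n, V x n ⊆ O

end Pool.Agent.Helper535.WF
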