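import Pool.Agent.Helper535.WF.Defs

set_option autoImplicit false

namespace Pool.Agent.Helper535.WF

universe u
open Set Topology Filter


/-- arities -/
def ar : Option (Option (List ℕ)) → Type
  | none => Empty
  | some _ => ℕ

/-- evaluation -/
def evs (X : Type u) (x0 : X) (L : (ℕ → X) → X) (P : List ℕ → (ℕ → X) → X) :
    (Σ a : Option (Option (List ℕ)), ar a → X) → X
  | ⟨none, _⟩ => x0
  | ⟨some none, f⟩ => L f
  | ⟨some (some l), f⟩ => P l f

theorem card_W : Cardinal.mk (WType ar) ≤ Cardinal.continuum := by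
  apply WType.cardinalMk_le_of_le'
  have h : ∀ a : Option (Option (List ℕ)),
      (Cardinal.continuum.{0} : Cardinal.{0}) ^ Cardinal.lift.{0} (Cardinal.mk (ar a))
        ≤ Cardinal.continuum := by
    intro a
    rw [Cardinal.lift_id]
    match a with
    | none =>
      have : Cardinal.mk (ar none) = 0 := Cardinal.mk_eq_zero Empty
      rw [this, Cardinal.power_zero]
      exact (Cardinal.one_lt_aleph0.le).trans Cardinal.aleph0_le_continuum
    | some b =>
      have : Cardinal.mk (ar (some b)) = Cardinal.aleph0 := Cardinal.mk_nat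
      rw [this, Cardinal.continuum_power_aleph0]
  refine (Cardinal.sum_le_sum _ _ h).trans ?_
  rw [Cardinal.sum_const']
  calc Cardinal.mk (Option (Option (List ℕ))) * Cardinal.continuum
      ≤ Cardinal.aleph0 * Cardinal.continuum := by
        gcongr
        exact Cardinal.mk_le_aleph0
    _ = Cardinal.continuum := Cardinal.aleph0_mul_continuum

theorem arh_gen (X : Type u) [Nonempty X] (L : (ℕ → X) → X) (P : List ℕ → (ℕ → X) → X) :
    ∃ H : Set X, H.Nonempty ∧ Cardinal.mk H ≤ Cardinal.continuum ∧
      (∀ s : ℕ → X, (∀ n, s n ∈ H) → L s ∈ H) ∧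
      (∀ l, ∀ s : ℕ → X, (∀ n, s n ∈ H) → P l s ∈ H) := by
  obtain ⟨x0⟩ := ‹Nonempty X›
  let ev : WType ar → X := WType.elim X (evs X x0 L P)
  refine ⟨Set.range ev, ⟨_, ⟨WType.mk none (fun e : Empty => e.elim), rfl⟩⟩, ?_, ?_, ?_⟩
  · have h1 := Cardinal.mk_range_le_lift (f := ev)
    have h2 : Cardinal.lift.{u} (Cardinal.mk (WType ar)) ≤ Cardinal.lift.{u} Cardinal.continuum :=
      Cardinal.lift_le.mpr card_W
    rw [Cardinal.lift_continuum] at h2
    have h3 := h1.trans h2
    simpa using h3
  · intro s hs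
    choose t ht using hs
    refine ⟨WType.mk (some none) t, ?_⟩
    show L (fun n => ev (t n)) = L s
    congr 1
    funext n
    exact ht n
  · intro l s hs
    choose t ht using hs
    refine ⟨WType.mk (some (some l)) t, ?_⟩
    show P l (fun n => ev (t n)) = P l s
    congr 1
    funext n
    exact ht n

end Pool.Agent.Helper535.WF
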