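import Pool.Agent.Helper535.WF.Defs
import Pool.Agent.Helper535.WF.P_arh_gen

set_option autoImplicit false

namespace Pool.Agent.Helper535.WF

universe u
open Set Topology Filter


theorem arh (X : Type u) [TopologicalSpace X] [CompactSpace X] [T2Space X]
    [FirstCountableTopology X] : Cardinal.mk X ≤ Cardinal.continuum := by
  classical
  rcases isEmpty_or_nonempty X with hX | hX
  · rw [Cardinal.mk_eq_zero]
    exact zero_le
  have hbasis : ∀ x : X, ∃ B : ℕ → Set X, (∀ n, IsOpen (B n)) ∧ (∀ n, x ∈ B n) ∧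
      ∀ U : Set X, IsOpen U → x ∈ U → ∃ n, B n ⊆ U := by
    intro x
    obtain ⟨B, hB, hB2⟩ := (nhds_basis_opens x).exists_antitone_subbasis
    refine ⟨B, fun n => (hB n).2, fun n => (hB n).1, fun U hU hx => ?_⟩
    obtain ⟨n, -, hn⟩ := hB2.toHasBasis.mem_iff.mp (hU.mem_nhds hx)
    exact ⟨n, hn⟩
  choose B hBo hBx hBb using hbasis
  obtain ⟨L, hLdef⟩ : ∃ L : (ℕ → X) → X, ∀ s, ∀ x, Tendsto s atTop (𝓝 x) → L s = x := by
    refine ⟨fun s => if h : ∃ x, Tendsto s atTop (𝓝 x) then h.choose
      else Classical.arbitrary X, fun s x hx => ?_⟩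
    have hex : ∃ x, Tendsto s atTop (𝓝 x) := ⟨x, hx⟩
    dsimp only
    rw [dif_pos hex]
    exact tendsto_nhds_unique hex.choose_spec hx
  obtain ⟨P, hPdef⟩ : ∃ P : List ℕ → (ℕ → X) → X, ∀ l s,
      (∃ y, ∀ i < l.length, y ∉ B (s i) (l.getD i 0)) →
        ∀ i < l.length, P l s ∉ B (s i) (l.getD i 0) := by
    refine ⟨fun l s => if h : ∃ y, ∀ i < l.length, y ∉ B (s i) (l.getD i 0) then h.choose
      else Classical.arbitrary X, fun l s h => ?_⟩
    dsimp only
    rw [dif_pos h]
    exact h.choose_spec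
  obtain ⟨H, hne, hcard, hL, hP⟩ := arh_gen X L P
  have hcl : IsClosed H := by
    refine isClosed_of_closure_subset fun x hx => ?_
    rw [mem_closure_iff_seq_limit] at hx
    obtain ⟨s, hs, hlim⟩ := hx
    have h1 := hL s hs
    rwa [hLdef s x hlim] at h1
  have huniv : H = Set.univ := by
    rw [Set.eq_univ_iff_forall]
    by_contra hcon
    push Not at hcon
    obtain ⟨y, hy⟩ := hcon
    have hn : ∀ x ∈ H, ∃ n, y ∉ B x n := by
      intro x hx
      obtain ⟨n, hn⟩ := hBb x {y}ᶜ isOpen_compl_singleton (by rintro rfl; exact hy hx)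
      exact ⟨n, fun h => hn h rfl⟩
    choose! N hN using hn
    obtain ⟨t, ht, hcov⟩ := hcl.isCompact.elim_nhds_subcover (fun x => B x (N x))
      (fun x _ => (hBo x (N x)).mem_nhds (hBx x (N x)))
    obtain ⟨x0, hx0⟩ := hne
    have hs : ∀ n, t.toList.getD n x0 ∈ H := by
      intro n
      by_cases h : n < t.toList.length
      · rw [List.getD_eq_getElem _ _ h]
        exact ht _ (Finset.mem_toList.mp (List.getElem_mem h))
      · rw [List.getD_eq_default _ _ (not_lt.mp h)]
        exact hx0
    have hl : ∀ i, i < (t.toList.map N).length → (t.toList.map N).getD i 0 =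
        N (t.toList.getD i x0) := by
      intro i hi
      have hi' : i < t.toList.length := by simpa using hi
      rw [List.getD_eq_getElem _ _ hi, List.getD_eq_getElem _ _ hi', List.getElem_map]
    have hex : ∃ z, ∀ i < (t.toList.map N).length,
        z ∉ B (t.toList.getD i x0) ((t.toList.map N).getD i 0) := by
      refine ⟨y, fun i hi => ?_⟩
      rw [hl i hi]
      exact hN _ (hs i)
    have h1 := hPdef (t.toList.map N) (fun i => t.toList.getD i x0) hex
    have h2 := hP (t.toList.map N) (fun i => t.toList.getD i x0) hs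
    obtain ⟨x, hxt, hx⟩ := Set.mem_iUnion₂.mp (hcov h2)
    obtain ⟨i, hi, hix⟩ := List.getElem_of_mem (Finset.mem_toList.mpr hxt)
    have hi2 : i < (t.toList.map N).length := by simpa using hi
    apply h1 i hi2
    rw [hl i hi2, List.getD_eq_getElem _ _ hi, hix]
    exact hx
  rw [← Cardinal.mk_univ, ← huniv]
  exact hcard

end Pool.Agent.Helper535.WF
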