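import Pool.Agent.Helper535.WF.Defs

set_option autoImplicit false

namespace Pool.Agent.Helper535.WF

universe u
open Set Topology Filter


theorem cclosed (X : Type u) [TopologicalSpace X] [T2Space X] (h : WeaklyFirstCountable X)
    (S : Set X) (hS : ∀ u : ℕ → X, (∀ n, u n ∈ S) → ∃ x ∈ S, MapClusterPt x atTop u) :
    IsClosed S := by
  obtain ⟨V, hV1, hV2, hV3⟩ := h
  by_contra hcl
  have ho : ¬ IsOpen Sᶜ := fun h => hcl (isOpen_compl_iff.1 h)
  rw [hV3] at ho
  push Not at ho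
  obtain ⟨x, hx, hn⟩ := ho
  have hex : ∀ n, ∃ a, a ∈ V x n ∧ a ∈ S := by
    intro n
    obtain ⟨a, ha, ha'⟩ := Set.not_subset.1 (hn n)
    exact ⟨a, ha, not_not.1 ha'⟩
  choose a ha1 ha2 using hex
  have hanti : Antitone (V x) := antitone_nat_of_succ_le (fun k => hV2 x k)
  have ht : Tendsto a atTop (𝓝 x) := by
    rw [tendsto_nhds]
    intro O hO hxO
    obtain ⟨n, hn⟩ := (hV3 O).1 hO x hxO
    filter_upwards [eventually_ge_atTop n] with m hm
    exact hn (hanti hm (ha1 m))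
  obtain ⟨y, hy, hc⟩ := hS a ha2
  have hne : (𝓝 y ⊓ 𝓝 x).NeBot := Filter.NeBot.mono hc (inf_le_inf le_rfl ht)
  have hyx : y = x := eq_of_nhds_neBot hne
  exact hx (hyx ▸ hy)

end Pool.Agent.Helper535.WF
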