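import Pool.Agent.Helper535.WF.Defs

set_option autoImplicit false

namespace Pool.Agent.Helper535.WF

universe u
open Set Topology Filter


theorem firstc (X : Type u) [TopologicalSpace X] [T2Space X] (h : WeaklyFirstCountable X)
    (hF : FrechetUrysohnSpace X) : FirstCountableTopology X := by
  obtain ⟨V, hx, hdec, hO⟩ := h
  have key : ∀ x n, V x n ∈ 𝓝 x := by
    intro x n
    by_contra hn
    have hc : x ∈ closure (V x n)ᶜ := by
      rw [closure_compl]
      intro hi
      exact hn (mem_interior_iff_mem_nhds.1 hi)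
    obtain ⟨b, hb, hbt⟩ := mem_closure_iff_seq_limit.1 hc
    have hopen : IsOpen ((Set.range b)ᶜ) := by
      rw [hO]
      intro y hy
      by_cases hyx : y = x
      · subst hyx
        refine ⟨n, fun z hz hr => ?_⟩
        obtain ⟨m, rfl⟩ := hr
        exact hb m hz
      · have hcl : IsClosed (insert x (Set.range b)) := hbt.isCompact_insert_range.isClosed
        have hy' : y ∈ (insert x (Set.range b))ᶜ := by
          intro h1
          rcases h1 with h1 | h1
          · exact hyx h1
          · exact hy h1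
        obtain ⟨k, hk⟩ := (hO _).1 hcl.isOpen_compl y hy'
        exact ⟨k, fun z hz hr => hk hz (Or.inr hr)⟩
    have hxO : x ∈ (Set.range b)ᶜ := by
      rintro ⟨m, hm⟩
      exact hb m (hm ▸ hx x n)
    have hev := hbt (hopen.mem_nhds hxO)
    obtain ⟨m, hm⟩ := (Filter.mem_map.1 hev |> Filter.Eventually.exists)
    exact hm ⟨m, rfl⟩
  refine ⟨fun x => ?_⟩
  have hbas : (𝓝 x).HasBasis (fun _ : ℕ => True) (V x) := by
    refine ⟨fun t => ⟨fun ht => ?_, fun ⟨n, _, hn⟩ => Filter.mem_of_superset (key x n) hn⟩⟩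
    obtain ⟨O', hO't, hOo, hxO⟩ := mem_nhds_iff.1 ht
    obtain ⟨n, hn⟩ := (hO O').1 hOo x hxO
    exact ⟨n, trivial, hn.trans hO't⟩
  exact Filter.HasCountableBasis.isCountablyGenerated ⟨hbas, Set.to_countable _⟩

end Pool.Agent.Helper535.WF
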